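import Pool.Agent.helper29.JZ.Spec

/-!
# Project jz (MP_3221a1_ag), row DIA: both curves are the same diagonal
-/

set_option autoImplicit false

open Finset Polynomial Module

namespace Pool.Agent.helper31.JZ

open Pool.Agent.helper29.JZ

private theorem DIA_cop (P Q : ℂ[X]) (h : IsCoprime P Q) (c : ℂ) (h1 : P.eval c = 0)
    (h2 : Q.eval c = 0) : False := by
  obtain ⟨u, v, huv⟩ := h
  have h3 := congrArg (Polynomial.eval c) huv
  rw [eval_add, eval_mul, eval_mul, h1, h2, mul_zero, mul_zero, add_zero, eval_one] at h3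
  exact zero_ne_one h3

private theorem DIA_inj (P Q : ℂ[X]) (h : IsCoprime P Q) (c s t : ℂ) (h1 : P.eval c * s = Q.eval c)
    (h2 : P.eval c * t = Q.eval c) : s = t := by
  have h3 : P.eval c * (s - t) = 0 := by
    rw [mul_sub, h1, h2, sub_self]
  rcases mul_eq_zero.mp h3 with h4 | h4
  · exfalso
    rw [h4, zero_mul] at h1
    exact DIA_cop P Q h c h4 h1.symm
  · exact sub_eq_zero.mp h4

private theorem DIA_cards {α : Type} [DecidableEq α] (A B : Finset α) (on : α → Prop)
    [DecidablePred on] :
    A.card = (A.filter on).card + (((A ∩ B).filter fun z => ¬ on z).card +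
      ((A \ B).filter fun z => ¬ on z).card) := by
  have h1 := card_filter_add_card_filter_not (s := A) on
  have h2 : (A.filter fun z => ¬ on z).card = ((A ∩ B).filter fun z => ¬ on z).card +
      ((A \ B).filter fun z => ¬ on z).card := by
    rw [← card_union_of_disjoint]
    · congr 1
      ext z
      simp only [mem_union, mem_filter, mem_inter, mem_sdiff]
      tauto
    · rw [disjoint_left]
      intro z hz hz'
      rw [mem_filter, mem_inter] at hz
      rw [mem_filter, mem_sdiff] at hz'
      exact hz'.1.2 hz.1.2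
  omega

theorem jz_DIA : DIA_stmt := by
  classical
  intro hTRA hTRB h h' x y M P Q P' Q' a b hx hy hC hC' he he' hcurve
  obtain ⟨k1, -, -, -, -, -, -, k8⟩ := hTRB hTRA h h' M
  set on : Fin h × Fin h' → Prop := fun z => P.eval (x z.1) * y z.2 = Q.eval (x z.1) with hon
  have hHC : HC x y M P Q = (PA M).filter on := by
    ext z
    simp only [HC, mem_filter, hon]
  have hHB : HB x y M P' Q' = (PB M).filter on := by
    ext z
    simp only [HB, mem_filter, hon]
    rw [hcurve]
  have e1 := hC.eq
  have e2 := hC'.eq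
  rw [he, hHC] at e1
  rw [he', k1, k8, hHB] at e2
  have c1 := DIA_cards (PA M) (PB M) on
  have c2 := DIA_cards (PB M) (PA M) on
  rw [inter_comm (PB M) (PA M)] at c2
  have hA : (PA M \ PB M).card ≤ sA M + ((PA M \ PB M).filter fun z => ¬ on z).card := by
    have h1 := card_filter_add_card_filter_not (s := PA M \ PB M) on
    have h2 : ((PA M \ PB M).filter on).card ≤ sA M := by
      unfold sA
      refine card_le_card_of_injOn (fun z => z.2) ?_ ?_
      · intro z hz
        rw [mem_coe, mem_filter, mem_sdiff] at hz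
        obtain ⟨⟨hzA, hzB⟩, _⟩ := hz
        have hzM : z ∈ M := (mem_filter.mp hzA).1
        rw [mem_coe, mem_filter]
        refine ⟨mem_univ _, ?_, z, hzA, rfl⟩
        have h3 : row M z.2 ≠ 1 := fun h4 => hzB (mem_filter.mpr ⟨hzM, h4⟩)
        have h4 : 0 < row M z.2 := card_pos.mpr ⟨z, mem_filter.mpr ⟨hzM, rfl⟩⟩
        change 2 ≤ row M z.2
        omega
      · intro z hz z' hz' hzz
        rw [mem_coe, mem_filter] at hz hz'
        simp only at hzz
        have g1 := (hcurve (x z.1) (y z.2)).mp hz.2
        have g2 := (hcurve (x z'.1) (y z'.2)).mp hz'.2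
        rw [← hzz] at g2
        have g3 := hx (DIA_inj P' Q' hC'.cop (y z.2) _ _ g1 g2)
        exact Prod.ext g3 hzz
    omega
  have hB : (PB M \ PA M).card ≤ sB M + ((PB M \ PA M).filter fun z => ¬ on z).card := by
    have h1 := card_filter_add_card_filter_not (s := PB M \ PA M) on
    have h2 : ((PB M \ PA M).filter on).card ≤ sB M := by
      unfold sB
      refine card_le_card_of_injOn (fun z => z.1) ?_ ?_
      · intro z hz
        rw [mem_coe, mem_filter, mem_sdiff] at hz
        obtain ⟨⟨hzB, hzA⟩, _⟩ := hz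
        have hzM : z ∈ M := (mem_filter.mp hzB).1
        rw [mem_coe, mem_filter]
        refine ⟨mem_univ _, ?_, z, hzB, rfl⟩
        have h3 : col M z.1 ≠ 1 := fun h4 => hzA (mem_filter.mpr ⟨hzM, h4⟩)
        have h4 : 0 < col M z.1 := card_pos.mpr ⟨z, mem_filter.mpr ⟨hzM, rfl⟩⟩
        change 2 ≤ col M z.1
        omega
      · intro z hz z' hz' hzz
        rw [mem_coe, mem_filter] at hz hz'
        simp only at hzz
        have g1 : P.eval (x z.1) * y z.2 = Q.eval (x z.1) := hz.2
        have g2 : P.eval (x z'.1) * y z'.2 = Q.eval (x z'.1) := hz'.2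
        rw [← hzz] at g2
        have g3 := hy (DIA_inj P Q hC.cop (x z.1) _ _ g1 g2)
        exact Prod.ext hzz g3
    omega
  refine ⟨((PA M ∩ PB M).filter fun z => ¬ on z).card, ((PA M \ PB M).filter fun z => ¬ on z).card,
    ((PB M \ PA M).filter fun z => ¬ on z).card, card_filter_le _ _, by omega, by omega,
    card_filter_le _ _, hA, card_filter_le _ _, hB⟩

end Pool.Agent.helper31.JZ
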